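import Pool.Agent.Z702.Defs2
import Pool.Agent.Z701.Main
import Pool.Agent.Y700.Gen

/-!
# The `2`-converse: assembly
-/

set_option autoImplicit false
set_option linter.style.haveILetI false

open Finset

namespace Pool.Agent.Z702

open Pool.Agent.TH841.SH.D
open Pool.Agent.Z700 (pr lres Yd)
open Pool.Agent.Z701 (Sp Nr xrS HyS)

/-- a nontrivial element of `Ш[2]` from an everywhere locally trivial class -/
theorem sha_ex (h1 : S_COC) (h2 : S_LOT) (h3 : S_COB) (h4 : S_TOR) {a b d : ℤ} (hb : b ≠ 0)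
    (hab : a ^ 2 - 4 * b ≠ 0) (nb : ¬ IsSquare (b : ℚ)) (nab : ¬ IsSquare ((a : ℚ) ^ 2 - 4 * b))
    (hd : d ≠ 0) (n1 : ¬ IsSquare (d : ℚ)) (n2 : ¬ IsSquare ((d : ℚ) * ((a : ℚ) ^ 2 - 4 * b)))
    (hl : ∀ (p : ℕ) [Fact p.Prime], LocI ℚ_[p] a b d) (hr : LocI ℝ a b d)
    (hf : Finite (WZ a b).toAffine.Point) : ∃ x : Sha (WZ a b), x ≠ 0 ∧ x + x = 0 := by
  have hc : coc hb d ∈ shaCoc (WZ a b) := ⟨(h1 a b hb d).1,
    fun p _ => h2 a b hb d hab hd ℚ_[p] (hl p), h2 a b hb d hab hd ℝ hr⟩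
  let N : AddSubgroup (shaCoc (WZ a b)) := (cob (WZ a b)).addSubgroupOf (shaCoc (WZ a b))
  let y : shaCoc (WZ a b) := ⟨coc hb d, hc⟩
  refine ⟨(QuotientAddGroup.mk y : shaCoc (WZ a b) ⧸ N), ?_, ?_⟩
  · intro h0
    have h0' : (QuotientAddGroup.mk y : shaCoc (WZ a b) ⧸ N) = 0 := h0
    rw [QuotientAddGroup.eq_zero_iff, AddSubgroup.mem_addSubgroupOf] at h0'
    rcases h3 a b hb d hab hd h0' with h | h | h
    · exact n1 h
    · exact n2 h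
    · rcases h4 a b d hb hab nb nab hf h with h | h
      · exact n1 h
      · exact n2 h
  · have h5 : (QuotientAddGroup.mk (y + y) : shaCoc (WZ a b) ⧸ N) = 0 := by
      rw [QuotientAddGroup.eq_zero_iff, AddSubgroup.mem_addSubgroupOf]
      have h6 : ((y + y : shaCoc (WZ a b)) : Coch (WZ a b)) = 0 := (h1 a b hb d).2
      rw [h6]
      exact cob_zero _
    exact h5

theorem ns_b {M : ℤ} (hM : M ≠ 0) : ¬ IsSquare ((128 * M ^ 2 : ℤ) : ℚ) :=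
  Pool.Agent.Y700.not_sq_aux _ (by
    rintro ⟨r, hr⟩
    have k1 : r < 12 := by nlinarith
    have k2 : -12 < r := by nlinarith
    interval_cases r <;> omega) hM

theorem ns_ab {M : ℤ} (hM : M ≠ 0) :
    ¬ IsSquare (((13 * M : ℤ) : ℚ) ^ 2 - 4 * ((128 * M ^ 2 : ℤ) : ℚ)) := by
  have e : ((13 * M : ℤ) : ℚ) ^ 2 - 4 * ((128 * M ^ 2 : ℤ) : ℚ) = (((-343) * M ^ 2 : ℤ) : ℚ) := by
    push_cast; ring
  rw [e]
  exact Pool.Agent.Y700.not_sq_aux _ (by decide) hM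

/-- the integer `pr J` is not a square -/
theorem ns_J {J : Finset ℕ} (hJ : ∀ p ∈ J, p.Prime) (hne : J.Nonempty) :
    ¬ IsSquare (((pr J : ℕ) : ℤ) : ℚ) := by
  intro h
  have h1 : IsSquare (((pr J : ℕ) : ℤ)) := by
    have h2 : ((((pr J : ℕ) : ℤ)) : ℚ) = (((pr J : ℕ) : ℚ)) := by push_cast; rfl
    rw [h2, Rat.isSquare_natCast_iff] at h
    obtain ⟨r, hr⟩ := h
    exact ⟨r, by exact_mod_cast hr⟩
  obtain ⟨r, hr⟩ := h1
  have hsq : Squarefree ((pr J : ℕ) : ℤ) := Pool.Agent.Z700.pr_sqf hJ |> Int.squarefree_natCast.2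
  have h3 : IsUnit r := hsq r ⟨1, by rw [hr]; ring⟩
  have h4 : 1 < pr J := Pool.Agent.Z700.one_lt_pr hJ hne
  rcases Int.isUnit_iff.1 h3 with h5 | h5
  · rw [h5] at hr
    have : pr J = 1 := by exact_mod_cast (by simpa using hr : ((pr J : ℕ) : ℤ) = 1)
    omega
  · rw [h5] at hr
    have : pr J = 1 := by exact_mod_cast (by simpa using hr : ((pr J : ℕ) : ℤ) = 1)
    omega

/-- **the converse**: rank zero and `Ш[2] = 0` imply that the matrix is nonsingular -/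
theorem conv (h1 : S_COC) (h2 : S_LOT) (h3 : S_COB) (h4 : S_TOR) (hL : S_LOC) (hn : S_LIN)
    {P S : Finset ℕ} (hP : ∀ p ∈ P, Sp p) (hS : ∀ q ∈ S, Nr q)
    (hf : Finite (WZ (13 * ((pr P * pr S : ℕ) : ℤ))
      (128 * ((pr P * pr S : ℕ) : ℤ) ^ 2)).toAffine.Point)
    (hsh : ∀ x : Sha (WZ (13 * ((pr P * pr S : ℕ) : ℤ)) (128 * ((pr P * pr S : ℕ) : ℤ) ^ 2)),
      x + x = 0 → x = 0) : Odd (Yd lres (xrS S) P) := by
  by_contra hY
  obtain ⟨J, hJP, hJne, k1, k2⟩ := hn lres (xrS S) P hY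
  obtain ⟨l1, l2⟩ := hL P S hP hS J hJP k1 k2
  have hJp : ∀ p ∈ J, p.Prime := fun p hp => (hP p (hJP hp)).1
  have hM0 : (pr P * pr S : ℕ) ≠ 0 := Nat.mul_ne_zero
    (Finset.prod_ne_zero_iff.2 fun r hr => (hP r hr).1.ne_zero)
    (Finset.prod_ne_zero_iff.2 fun r hr => (hS r hr).1.ne_zero)
  have hM : ((pr P * pr S : ℕ) : ℤ) ≠ 0 := by exact_mod_cast hM0
  have hM2 : 0 < ((pr P * pr S : ℕ) : ℤ) ^ 2 := by positivity
  have hab : (13 * ((pr P * pr S : ℕ) : ℤ)) ^ 2 - 4 * (128 * ((pr P * pr S : ℕ) : ℤ) ^ 2) < 0 := by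
    nlinarith
  have hd0 : 0 < pr J := Pool.Agent.Z700.pr_pos hJp
  obtain ⟨x, hx0, hx2⟩ := sha_ex h1 h2 h3 h4 (d := ((pr J : ℕ) : ℤ)) (by positivity) hab.ne
    (ns_b hM) (ns_ab hM) (by exact_mod_cast hd0.ne') (ns_J hJp hJne) (by
      rintro ⟨r, hr⟩
      have h5 : (((13 * ((pr P * pr S : ℕ) : ℤ) : ℤ) : ℚ) ^ 2 -
          4 * ((128 * ((pr P * pr S : ℕ) : ℤ) ^ 2 : ℤ) : ℚ)) < 0 := by exact_mod_cast hab
      have h6 : (0 : ℚ) < (((pr J : ℕ) : ℤ) : ℚ) := by exact_mod_cast hd0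
      nlinarith [mul_self_nonneg r, mul_pos h6 (neg_pos.2 h5)]) l1 l2 hf
  exact hx0 (hsh x hx2)

open Pool.Agent.Y687 (SS Symb2)
open Pool.Agent.W97.MT (ap E14 IsGloballyMinimal)
open Pool.Agent.Y700 (WM EQ Omega tamProd IsL S_E0 S_TIN S_TSP S_T2 S_T7 S_OMEGA S_MIN)

/-- the value at `1` in terms of the sum of the symbols, in general -/
theorem conclG (tO : S_OMEGA) (tM : S_MIN) {M : ℕ} (h4 : M % 4 = 1) (hM1 : 1 < M)
    (hsqf : Squarefree ((M : ℕ) : ℤ)) (h14 : Nat.Coprime M 14)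
    {s : ℚ → ℤ} {L : PeriodPair} {Op Om : ℝ} (hOp : 0 < Op) (hOm : 0 < Om)
    (g2 : L.g₂ = -215 / 12) (g3 : L.g₃ = 5291 / 216)
    (hL : ∀ w : ℂ, w ∈ L.lattice ↔ ∃ a b : ℤ, 2 ∣ a - b ∧ w = a * Op + b * Om * Complex.I)
    (hs : ∀ r : ℚ, (3 : ℝ) * (Pool.Agent.W97.MT.II r).re = s r * Op) {e : ℕ} {o1 y : ℤ}
    (ho1 : Odd o1) (e1 : SS s M M = 2 ^ e * (o1 * y ^ 2)) {o3 : ℕ} (ho3 : Odd o3)
    (e3 : tamProd (WM (M : ℤ)) = 2 ^ (e + 1) * o3) {k : ℕ} (hk : Odd k)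
    (a3 : Nat.card (AddCommGroup.torsion (EQ (WM (M : ℤ))).toAffine.Point) = 2 * k) :
    IsGloballyMinimal (WM (M : ℤ)) ∧
    (∃ f, IsL (WM (M : ℤ)) f) ∧ ∀ f, IsL (WM (M : ℤ)) f → ∃ w : ℚ, w ≠ 0 ∧ padicValRat 2 w = 0 ∧
      f 1 = (((w : ℝ) * (y : ℝ) ^ 2 * (Omega (WM (M : ℤ)) * tamProd (WM (M : ℤ)) /
        (Nat.card (AddCommGroup.torsion (EQ (WM (M : ℤ))).toAffine.Point) : ℝ) ^ 2) : ℝ) : ℂ) := by
  have h4' : (M : ℤ) % 4 = 1 := by omega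
  have hodd : Odd M := Nat.odd_iff.2 (by omega)
  have h7M : ¬ 7 ∣ M := by
    intro h
    have h1 : 7 ∣ Nat.gcd M 14 := Nat.dvd_gcd h (by norm_num)
    rw [h14] at h1
    norm_num at h1
  obtain ⟨f, ε, hf, hε, hv⟩ := Pool.Agent.Y700.value hodd (Int.squarefree_natCast.1 hsqf) hM1 h4
    h14 hs
  have hΩ : Omega (WM (M : ℤ)) = 2 * Op / Real.sqrt M := by
    have := tO L Op Om hOp hOm g2 g3 hL (M : ℤ) h4' (by omega)
    simpa using this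
  refine ⟨(tM M h4' hsqf (by exact_mod_cast h7M)).1, ⟨f, hf⟩, ?_⟩
  intro g hg
  rw [hg.unique hf]
  have hMR : (0 : ℝ) < M := by exact_mod_cast (by omega : 0 < M)
  have hsq0 : (Real.sqrt M) ≠ 0 := (Real.sqrt_pos.2 hMR).ne'
  have hεo : Odd ε := by rcases hε with rfl | rfl <;> decide
  obtain ⟨hu0, hu1⟩ := Pool.Agent.Y700.odd_div_odd (a := ε * o1 * (k : ℤ) ^ 2) (b := 3 * (o3 : ℤ))
    ((hεo.mul ho1).mul ((Int.odd_coe_nat k).2 hk).pow)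
    ((by decide : Odd (3 : ℤ)).mul ((Int.odd_coe_nat o3).2 ho3))
  have ho3' : (o3 : ℝ) ≠ 0 := by
    rintro h
    have : o3 = 0 := by exact_mod_cast h
    rw [this] at ho3
    exact absurd ho3 (by decide)
  have hk' : (k : ℝ) ≠ 0 := by
    rintro h
    have : k = 0 := by exact_mod_cast h
    rw [this] at hk
    exact absurd hk (by decide)
  have hSSR : (SS s M M : ℝ) = 2 ^ e * (o1 * (y : ℝ) ^ 2) := by
    rw [e1]
    push_cast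
    rfl
  refine ⟨_, ?_, hu1, ?_⟩
  · exact hu0
  · rw [hv]
    congr 1
    rw [hΩ, hSSR, e3, a3]
    push_cast
    rw [pow_add]
    field_simp

open Pool.Agent.Z700 (xres S_SYM)
open Pool.Agent.Z701 (S_DIAG S_IND S_XRS S_SELA S_SELB)

/-- transport of the two conditions to the minimal equation -/
theorem trn_WM (h : S_TRN) {M : ℤ} (h4 : M % 4 = 1) :
    (Finite (WZ (13 * M) (128 * M ^ 2)).toAffine.Point ↔ Finite (EQ (WM M)).toAffine.Point) ∧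
    ((∀ x : Sha (WZ (13 * M) (128 * M ^ 2)), x + x = 0 → x = 0) ↔
      ∀ x : Sha (EQ (WM M)), x + x = 0 → x = 0) ∧
    Nat.card (AddCommGroup.torsion (WZ (13 * M) (128 * M ^ 2)).toAffine.Point) =
      Nat.card (AddCommGroup.torsion (EQ (WM M)).toAffine.Point) := by
  have hM0 : M ≠ 0 := by intro h; rw [h] at h4; norm_num at h4
  refine h _ _ _ _ _ _ (Pool.Agent.Y700.vr_WM h4) ?_
  rw [WeierstrassCurve.map_Δ]
  have h5 : (WM M).Δ ≠ 0 := by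
    rw [Pool.Agent.Y700.Delta_WM h4]
    exact mul_ne_zero (by norm_num) (pow_ne_zero 6 hM0)
  show (((WM M).Δ : ℤ) : ℚ) ≠ 0
  exact_mod_cast h5

/-- **the equivalence**: the matrix is nonsingular if and only if the rank is zero and `Ш[2] = 0` -/
theorem equiv (h1 : S_COC) (h2 : S_LOT) (h3 : S_COB) (h4 : S_TOR) (hL : S_LOC) (hn : S_LIN)
    (hT : S_TRN) (hA : S_SELA) (hB : S_SELB) {P S : Finset ℕ} (hne : P.Nonempty)
    (hP : ∀ p ∈ P, Sp p) (hS : ∀ q ∈ S, Nr q) :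
    Odd (Yd lres (xrS S) P) ↔ (Finite (EQ (WM ((pr P * pr S : ℕ) : ℤ))).toAffine.Point ∧
      ∀ x : Sha (EQ (WM ((pr P * pr S : ℕ) : ℤ))), x + x = 0 → x = 0) := by
  obtain ⟨m4, m1, -, -⟩ := Pool.Agent.Z701.pr_facts hP hS hne
  have m4' : ((pr P * pr S : ℕ) : ℤ) % 4 = 1 := by omega
  obtain ⟨t1, t2, -⟩ := trn_WM hT m4'
  constructor
  · intro hY
    have H : HyS P S := ⟨hne, hP, hS, hY⟩
    obtain ⟨a1, a2, -⟩ := Pool.Agent.Y700.alg_M (M := ((pr P * pr S : ℕ) : ℤ)) m4'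
      (fun z h1 h2 h3 => hA P S H z h1 h2 (fun l _ => h3 l))
      (fun z h1 h2 => hB P S H z h1 (fun l _ => h2 l))
    exact ⟨a2, fun x hx => a1 1 x (by rw [pow_one, two_nsmul]; exact hx)⟩
  · rintro ⟨hf, hsh⟩
    exact conv h1 h2 h3 h4 hL hn hP hS (t1.2 hf) (t2.2 hsh)

/-- **the formula modulo two for all the twists** -/
theorem fullB (h1 : S_COC) (h2 : S_LOT) (h3 : S_COB) (h4 : S_TOR) (hL : S_LOC) (hn : S_LIN)
    (hT : S_TRN) (hTo : S_TORS) (tE : S_E0) (tIN : S_TIN) (tSP : S_TSP) (t2 : S_T2) (t7 : S_T7)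
    (tO : S_OMEGA) (tM : S_MIN) (hS : S_SYM) (hD : S_DIAG) (hI : S_IND)
    (hR : Pool.Agent.Z700.S_RTE) (hX : S_XRS) (hA : S_SELA) (hB : S_SELB) {P S : Finset ℕ}
    (hP : ∀ p ∈ P, Sp p) (hSS : ∀ q ∈ S, Nr q) (hev : Even S.card) (hne : P.Nonempty)
    (W : WeierstrassCurve ℤ) (hW : W = WM ((pr P * pr S : ℕ) : ℤ)) :
    IsGloballyMinimal W ∧ (∃ f, IsL W f) ∧ ∃ y : ℤ,
      (Odd y ↔ (Finite (EQ W).toAffine.Point ∧ ∀ x : Sha (EQ W), x + x = 0 → x = 0)) ∧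
      ∀ f, IsL W f → ∃ w : ℚ, w ≠ 0 ∧ padicValRat 2 w = 0 ∧
        f 1 = (((w : ℝ) * (y : ℝ) ^ 2 * (Omega W * tamProd W /
          (Nat.card (AddCommGroup.torsion (EQ W).toAffine.Point) : ℝ) ^ 2) : ℝ) : ℂ) := by
  classical
  obtain ⟨m4, m1, hsq, h42⟩ := Pool.Agent.Z701.pr_facts hP hSS hne
  have m4' : ((pr P * pr S : ℕ) : ℤ) % 4 = 1 := by omega
  have hM0 : ((pr P * pr S : ℕ) : ℤ) ≠ 0 := by omega
  obtain ⟨s, L, Op, Om, hOp, hOm, g2, g3, hLt, hsym, hs⟩ := Pool.Agent.Y700.exists_symb2'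
  obtain ⟨u1, u2, u3, u4, u5⟩ := Pool.Agent.Z701.union_facts hP hSS
  have hne' : (P ∪ S).Nonempty := hne.mono Finset.subset_union_left
  obtain ⟨y, e2, e3⟩ := hI (P ∪ S) (u5 hev) hne'
  rw [u1, u2] at e2 e3
  have e1 : SS s (pr P * pr S) (pr P * pr S) = 2 ^ (S.card + 2 * P.card) * ((s 0 * 9) * y ^ 2) := by
    rw [← u3, Pool.Agent.Z701.SS_eq hS hD hsym Pool.Agent.Z700.ap5 (u5 hev) hne', e2]
    obtain ⟨r, hr⟩ := hev
    have e4 : S.card / 2 = r := by omega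
    rw [e4, hr]
    have h4 : (2 : ℤ) ^ (r + r + 2 * P.card) = (2 ^ (P.card + r)) ^ 2 := by
      rw [← pow_mul]
      congr 1
      ring
    rw [h4]
    ring
  have hsqZ : Squarefree ((pr P * pr S : ℕ) : ℤ) := Int.squarefree_natCast.2 hsq
  obtain ⟨o3, ho3, e5⟩ := Pool.Agent.Y700.tam_gen tE tIN tSP t2 t7 (P := P) (S := S)
    (M := pr P * pr S) (by
      intro q hq
      have h7 := (hP q hq).2.2
      have h8 := (hP q hq).2.1
      haveI : Fact q.Prime := ⟨(hP q hq).1⟩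
      exact ⟨(hP q hq).1, by omega, by omega,
        (Pool.Agent.Y687.sq_seven q (by omega) (by omega)).2 h7⟩) (by
      intro q hq
      have h7 := (hSS q hq).2.2
      have h8 := (hSS q hq).2.1
      haveI : Fact q.Prime := ⟨(hSS q hq).1⟩
      refine ⟨(hSS q hq).1, by omega, by omega, ?_⟩
      rw [Pool.Agent.Y687.sq_seven q (by omega) (by omega)]
      omega) (by simp [pr]) m4 hsqZ
  have hM2 : 0 < ((pr P * pr S : ℕ) : ℤ) ^ 2 := by positivity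
  have hab : (13 * ((pr P * pr S : ℕ) : ℤ)) ^ 2 - 4 * (128 * ((pr P * pr S : ℕ) : ℤ) ^ 2) < 0 := by
    nlinarith
  obtain ⟨k, hk, a3⟩ := hTo (13 * ((pr P * pr S : ℕ) : ℤ)) (128 * ((pr P * pr S : ℕ) : ℤ) ^ 2)
    (by positivity) hab.ne (ns_b hM0) (ns_ab hM0)
  rw [(trn_WM hT m4').2.2] at a3
  have h14 : Nat.Coprime (pr P * pr S) 14 := Nat.Coprime.coprime_dvd_right (by norm_num) h42
  obtain ⟨c1, c2, c3⟩ := conclG tO tM m4 m1 hsqZ h14 hOp hOm g2 g3 hLt hs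
    ((hsym.odd0.mul (by decide : Odd (9 : ℤ)))) e1 ho3 e5 hk a3
  subst hW
  refine ⟨c1, c2, y, ?_, c3⟩
  rw [e3, ← Pool.Agent.Z701.Yd_iff hS hD hI hR hX hP hSS]
  exact equiv h1 h2 h3 h4 hL hn hT hA hB hne hP hSS

/-- the short model of the twist -/
def sh (A B : ℤ) : WeierstrassCurve ℚ :=
  { a₁ := 0, a₂ := 0, a₃ := 0, a₄ := (A : ℚ), a₆ := (B : ℚ) }

/-- transport of the two conditions to the short model -/
theorem trn_sh (h : S_TRN) {M : ℤ} (hM : M ≠ 0) :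
    (Finite (WZ (13 * M) (128 * M ^ 2)).toAffine.Point ↔
      Finite (sh (5805 * M ^ 2) (-285714 * M ^ 3)).toAffine.Point) ∧
    ((∀ x : Sha (WZ (13 * M) (128 * M ^ 2)), x + x = 0 → x = 0) ↔
      ∀ x : Sha (sh (5805 * M ^ 2) (-285714 * M ^ 3)), x + x = 0 → x = 0) := by
  have hMQ : (M : ℚ) ≠ 0 := by exact_mod_cast hM
  have hv : Pool.Agent.Y700.VR (WZ (13 * M) (128 * M ^ 2)) (sh (5805 * M ^ 2) (-285714 * M ^ 3))
      (1 / 3) (-13 * M / 3) 0 0 := by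
    refine ⟨by norm_num, ?_, ?_, ?_, ?_, ?_⟩
    · show (1 / 3 : ℚ) * 0 = 0 + 2 * 0
      norm_num
    · show (1 / 3 : ℚ) ^ 2 * 0 = ((13 * M : ℤ) : ℚ) - 0 * 0 + 3 * (-13 * M / 3) - 0 ^ 2
      push_cast
      ring
    · show (1 / 3 : ℚ) ^ 3 * 0 = 0 + (-13 * M / 3) * 0 + 2 * 0
      ring
    · show (1 / 3 : ℚ) ^ 4 * ((5805 * M ^ 2 : ℤ) : ℚ) = ((128 * M ^ 2 : ℤ) : ℚ) - 0 * 0 +
        2 * (-13 * M / 3) * ((13 * M : ℤ) : ℚ) - (0 + (-13 * M / 3) * 0) * 0 +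
        3 * (-13 * (M : ℚ) / 3) ^ 2 - 2 * 0 * 0
      push_cast
      ring
    · show (1 / 3 : ℚ) ^ 6 * ((-285714 * M ^ 3 : ℤ) : ℚ) = 0 +
        (-13 * M / 3) * ((128 * M ^ 2 : ℤ) : ℚ) + (-13 * M / 3) ^ 2 * ((13 * M : ℤ) : ℚ) +
        (-13 * (M : ℚ) / 3) ^ 3 - 0 * 0 - 0 ^ 2 - (-13 * M / 3) * 0 * 0
      push_cast
      ring
  obtain ⟨h1, h2, -⟩ := h _ _ _ _ _ _ hv (by
    have e : (sh (5805 * M ^ 2) (-285714 * M ^ 3)).Δ = -(46539740160 * 1000) * 0 +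
        (-16 * (4 * 5805 ^ 3 + 27 * 285714 ^ 2)) * (M : ℚ) ^ 6 := by
      unfold sh WeierstrassCurve.Δ WeierstrassCurve.b₂ WeierstrassCurve.b₄ WeierstrassCurve.b₆
        WeierstrassCurve.b₈
      push_cast
      ring
    rw [e]
    have : (M : ℚ) ^ 6 ≠ 0 := pow_ne_zero 6 hMQ
    simp only [mul_zero, zero_add]
    exact mul_ne_zero (by norm_num) this)
  exact ⟨h1, h2⟩

/-- the equivalence for the short model -/
theorem equivS (h1 : S_COC) (h2 : S_LOT) (h3 : S_COB) (h4 : S_TOR) (hL : S_LOC) (hn : S_LIN)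
    (hT : S_TRN) (hA : S_SELA) (hB : S_SELB) {P S : Finset ℕ} (hne : P.Nonempty)
    (hP : ∀ p ∈ P, Sp p) (hS : ∀ q ∈ S, Nr q) :
    Odd (Yd lres (xrS S) P) ↔
      (Finite (sh (5805 * ((pr P * pr S : ℕ) : ℤ) ^ 2)
        (-285714 * ((pr P * pr S : ℕ) : ℤ) ^ 3)).toAffine.Point ∧
      ∀ x : Sha (sh (5805 * ((pr P * pr S : ℕ) : ℤ) ^ 2) (-285714 * ((pr P * pr S : ℕ) : ℤ) ^ 3)),
        x + x = 0 → x = 0) := by
  obtain ⟨m4, m1, -, -⟩ := Pool.Agent.Z701.pr_facts hP hS hne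
  have m4' : ((pr P * pr S : ℕ) : ℤ) % 4 = 1 := by omega
  obtain ⟨t1, t2, -⟩ := trn_WM hT m4'
  obtain ⟨t3, t4⟩ := trn_sh hT (M := ((pr P * pr S : ℕ) : ℤ)) (by omega)
  rw [equiv h1 h2 h3 h4 hL hn hT hA hB hne hP hS, ← t1, ← t2, t3, t4]

end Pool.Agent.Z702
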