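import Pool.Agent.Z702.Defs2
import Pool.Agent.Y687.N.Exi

/-!
# Local points from a kernel vector, twists of any sign
-/

set_option autoImplicit false
set_option linter.style.haveILetI false

namespace Pool.Agent.Z702

open Finset

open Pool.Agent.Z700 (pr lres)
open Pool.Agent.Z701 (Sp Nr xrS)
open Pool.Agent.Y700 (Rt)
open Pool.Agent.Y687.N (RtZ xrZ sp_sq isSquare_mul_iff)
open Pool.Agent.Y664.Z (parity prime_not_dvd_pr cast_pr_ne)

section

open Polynomial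

lemma padic_sq {p : ℕ} [hp : Fact p.Prime] (hp2 : p ≠ 2) {n : ℤ} (hn : ¬ (p : ℤ) ∣ n)
    (h : IsSquare (n : ZMod p)) : IsSquare (n : ℚ_[p]) := by
  obtain ⟨a, ha⟩ := h
  obtain ⟨s, hs⟩ := ZMod.intCast_surjective a
  have h1 : (p : ℤ) ∣ s ^ 2 - n := by
    rw [← ZMod.intCast_zmod_eq_zero_iff_dvd]
    push_cast
    rw [ha, hs]
    ring
  have h2 : ¬ (p : ℤ) ∣ 2 * s := by
    intro h2
    have hpi : Prime (p : ℤ) := Nat.prime_iff_prime_int.1 hp.out
    rcases hpi.dvd_or_dvd h2 with h3 | h3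
    · have h5 : p ∣ 2 := by exact_mod_cast h3
      exact hp2 ((Nat.prime_dvd_prime_iff_eq hp.out Nat.prime_two).1 h5)
    · apply hn
      have := dvd_sub ((dvd_pow h3 two_ne_zero : (p : ℤ) ∣ s ^ 2)) h1
      simpa using this
  have e1 : ∀ w : ℤ_[p], (aeval w) (X ^ 2 - C (n : ℤ_[p]) : ℤ_[p][X]) = w ^ 2 - n := by
    intro w; simp
  have e2 : ∀ w : ℤ_[p], (aeval w) (derivative (X ^ 2 - C (n : ℤ_[p]) : ℤ_[p][X])) = 2 * w := by
    intro w; simp; norm_num
  obtain ⟨z, hz, -⟩ := hensels_lemma (p := p) (R := ℤ_[p]) (F := X ^ 2 - C (n : ℤ_[p]))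
    (a := (s : ℤ_[p])) (by
      rw [e1, e2]
      have h3 : ‖((s ^ 2 - n : ℤ) : ℤ_[p])‖ < 1 := by
        rw [PadicInt.norm_intCast_lt_one_iff]
        exact h1
      have h4 : ‖((2 * s : ℤ) : ℤ_[p])‖ = 1 := by
        have h5 : ¬ ‖((2 * s : ℤ) : ℤ_[p])‖ < 1 := by
          rw [PadicInt.norm_intCast_lt_one_iff]
          exact h2
        exact le_antisymm (PadicInt.norm_le_one _) (not_lt.1 h5)
      push_cast at h3 h4
      rw [h4]
      simpa using h3)
  rw [e1] at hz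
  have h6 := congrArg (fun w : ℤ_[p] => (w : ℚ_[p])) (sub_eq_zero.1 hz)
  push_cast at h6
  exact ⟨z, by rw [← h6]; ring⟩

lemma padic_sq2 {n : ℤ} (hn : n % 8 = 1) : IsSquare (n : ℚ_[2]) := by
  have e1 : ∀ w : ℤ_[2], (aeval w) (X ^ 2 - C (n : ℤ_[2]) : ℤ_[2][X]) = w ^ 2 - n := by
    intro w; simp
  have e2 : ∀ w : ℤ_[2], (aeval w) (derivative (X ^ 2 - C (n : ℤ_[2]) : ℤ_[2][X])) = 2 * w := by
    intro w; simp; norm_num
  obtain ⟨z, hz, -⟩ := hensels_lemma (p := 2) (R := ℤ_[2]) (F := X ^ 2 - C (n : ℤ_[2]))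
    (a := 1) (by
      rw [e1, e2]
      have h4 : ‖(2 : ℤ_[2])‖ = 2⁻¹ := by
        have := PadicInt.norm_p (p := 2)
        exact_mod_cast this
      have h3 : ‖((1 - n : ℤ) : ℤ_[2])‖ ≤ ((2 : ℕ) : ℝ) ^ (-(3 : ℕ) : ℤ) := by
        rw [PadicInt.norm_int_le_pow_iff_dvd]
        push_cast
        omega
      push_cast at h3
      rw [one_pow, mul_one, h4]
      refine lt_of_le_of_lt h3 ?_
      norm_num)
  rw [e1] at hz
  have h6 := congrArg (fun w : ℤ_[2] => (w : ℚ_[2])) (sub_eq_zero.1 hz)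
  push_cast at h6
  exact ⟨z, by rw [← h6]; ring⟩

end

theorem sq7_of {n : ℕ} (h : n % 7 = 1 ∨ n % 7 = 2 ∨ n % 7 = 4) : IsSquare ((n : ℤ) : ZMod 7) := by
  have e : ((n : ℤ) : ZMod 7) = (((n % 7 : ℕ)) : ZMod 7) := by
    rw [Int.cast_natCast, ZMod.natCast_mod]
  rw [e]
  rcases h with h | h | h <;> rw [h]
  · exact ⟨1, by decide⟩
  · exact ⟨3, by decide⟩
  · exact ⟨2, by decide⟩

theorem prJ8 : ∀ Q : Finset ℕ, (∀ p ∈ Q, p % 8 = 1) → pr Q % 8 = 1 := by
  intro Q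
  induction Q using Finset.induction_on with
  | empty => intro _; simp [pr]
  | insert a Q ha ih =>
    intro hQ
    have e : pr (insert a Q) = a * pr Q := by unfold pr; rw [Finset.prod_insert ha]
    rw [e, Nat.mul_mod, hQ a (Finset.mem_insert_self _ _),
      ih fun p hp => hQ p (Finset.mem_insert_of_mem hp)]

theorem prJ7 : ∀ Q : Finset ℕ, (∀ p ∈ Q, p % 7 = 1 ∨ p % 7 = 2 ∨ p % 7 = 4) →
    pr Q % 7 = 1 ∨ pr Q % 7 = 2 ∨ pr Q % 7 = 4 := by
  intro Q
  induction Q using Finset.induction_on with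
  | empty => intro _; simp [pr]
  | insert a Q ha ih =>
    intro hQ
    have e : pr (insert a Q) = a * pr Q := by unfold pr; rw [Finset.prod_insert ha]
    rw [e, Nat.mul_mod]
    have h1 := hQ a (Finset.mem_insert_self _ _)
    have h2 := ih fun p hp => hQ p (Finset.mem_insert_of_mem hp)
    rcases h1 with h1 | h1 | h1 <;> rcases h2 with h2 | h2 | h2 <;> rw [h1, h2] <;> decide

/-- **local points** from a kernel vector, for `M = pr P * m`, `m` an integer of any sign whose prime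
factors are inert in `ℚ(√-7)` -/
theorem locZ (hq : S_LQ) (hg : S_LG) (hp : S_LP) {m : ℤ} {P J : Finset ℕ} (hm0 : m ≠ 0)
    (hP : ∀ p ∈ P, Sp p)
    (hm : ∀ q : ℕ, q.Prime → (q : ℤ) ∣ m → q ≠ 2 ∧ q ≠ 7 ∧ ¬ IsSquare (-7 : ZMod q))
    (hJ : J ⊆ P) (k1 : ∀ p ∈ P \ J, Even (∑ q ∈ J, lres p q))
    (k2 : ∀ p ∈ J, Even (∑ q ∈ P \ J, lres p q + xrZ m p)) :
    (∀ (l : ℕ) [Fact l.Prime], LocI ℚ_[l] (13 * ((pr P : ℤ) * m))
      (128 * ((pr P : ℤ) * m) ^ 2) (pr J)) ∧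
    LocI ℝ (13 * ((pr P : ℤ) * m)) (128 * ((pr P : ℤ) * m) ^ 2) (pr J) := by
  classical
  have hPp : ∀ p ∈ P, p.Prime := fun p h => (hP p h).1
  have hJp : ∀ p ∈ J, p.Prime := fun p h => hPp p (hJ h)
  have hprP0 : (pr P : ℤ) ≠ 0 := by exact_mod_cast (Finset.prod_ne_zero_iff.2 fun r hr => (hPp r hr).ne_zero)
  have hprJ0 : 0 < pr J := Nat.pos_of_ne_zero (Finset.prod_ne_zero_iff.2 fun r hr => (hJp r hr).ne_zero)
  have hM0 : (pr P : ℤ) * m ≠ 0 := mul_ne_zero hprP0 hm0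
  set M : ℤ := (pr P : ℤ) * m with hM
  have hM2 : 0 < M ^ 2 := by positivity
  have hb : (128 * M ^ 2 : ℤ) ≠ 0 := by positivity
  have hab : (13 * M) ^ 2 - 4 * (128 * M ^ 2) ≠ 0 := by nlinarith
  have hd0 : ((pr J : ℕ) : ℤ) ≠ 0 := by exact_mod_cast hprJ0.ne'
  obtain ⟨q1, q2⟩ := hq (13 * M) (128 * M ^ 2) (pr J) hb hab hd0
  refine ⟨fun l hl => ?_, q2 (by exact_mod_cast hprJ0)⟩
  by_cases l2 : l = 2
  · subst l2
    refine q1 2 (Or.inl ?_)
    have h8 : ((pr J : ℕ) : ℤ) % 8 = 1 := by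
      have := prJ8 J fun p h => (hP p (hJ h)).2.1
      omega
    exact padic_sq2 h8
  by_cases lJ : l ∈ J
  · -- a split prime dividing `d`
    have hlP : l ∈ P := hJ lJ
    obtain ⟨n2, n7, hs2, hs1, hs7⟩ := sp_sq (hP l hlP)
    have hlm : ¬ (l : ℤ) ∣ m := fun h => (hm l hl.out h).2.2 hs7
    have hm0' : (m : ZMod l) ≠ 0 := by
      rwa [Ne, ZMod.intCast_zmod_eq_zero_iff_dvd]
    set m' : ℕ := (m : ZMod l).val with hm'
    have em' : ((m' : ℕ) : ZMod l) = (m : ZMod l) := ZMod.natCast_zmod_val _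
    have hRt : Rt l m' ↔ RtZ m l := by
      unfold Rt RtZ
      rw [em']
    have e1 : pr P = l * pr (P.erase l) := Pool.Agent.Y664.Z.pr_erase hlP
    have e2 : pr J = l * pr (J.erase l) := Pool.Agent.Y664.Z.pr_erase lJ
    have e3 : pr (P.erase l) = pr (J.erase l) * pr (P \ J) := Pool.Agent.Y664.Z.pr_erase_sdiff hJ lJ
    have hlP' : ¬ l ∣ pr (P.erase l) := prime_not_dvd_pr hl.out
      (fun q h => hPp q (Finset.mem_of_mem_erase h)) (Finset.notMem_erase l P)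
    have hlJ' : ¬ l ∣ pr (J.erase l) := prime_not_dvd_pr hl.out
      (fun q h => hJp q (Finset.mem_of_mem_erase h)) (Finset.notMem_erase l J)
    have hlPJ : ((pr (P \ J) : ℕ) : ZMod l) ≠ 0 := cast_pr_ne hl.out
      (fun q h => hPp q (Finset.mem_sdiff.1 h).1) (fun h => (Finset.mem_sdiff.1 h).2 lJ)
    have hpar := parity hl.out (hP l hlP).2.1 (P \ J)
      (fun q h => ⟨(hP q (Finset.mem_sdiff.1 h).1).1, (hP q (Finset.mem_sdiff.1 h).1).2.1⟩)
      (fun h => (Finset.mem_sdiff.1 h).2 lJ)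
    have hk := k2 l lJ
    have hiff : IsSquare ((pr (P \ J) : ℕ) : ZMod l) ↔ ¬ RtZ m l := by
      rw [hpar]
      unfold xrZ at hk
      by_cases h5 : RtZ m l
      · rw [if_pos h5, Int.even_add] at hk
        constructor
        · intro h7
          exact absurd (hk.1 h7) (by decide)
        · intro h7
          exact absurd h5 h7
      · rw [if_neg h5, add_zero] at hk
        exact ⟨fun _ => h5, fun _ => hk⟩
    have h := hp l (hP l hlP).2.1 hs7 m' (pr (P.erase l) * m) (pr (J.erase l)) (by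
        intro h
        rw [← ZMod.natCast_eq_zero_iff, em'] at h
        exact hm0' h) (by
        intro h
        rcases (Nat.prime_iff_prime_int.1 hl.out).dvd_or_dvd h with h | h
        · exact hlP' (by exact_mod_cast h)
        · exact hlm h) (by exact_mod_cast hlJ') (by
        rw [hRt, ← hiff]
        have e4 : (((((pr (P.erase l) : ℕ) : ℤ) * m) * ((pr (J.erase l) : ℕ) : ℤ) * (m' : ℤ) : ℤ) :
            ZMod l) = ((pr (P \ J) : ℕ) : ZMod l) *
              ((((pr (J.erase l) : ℕ) : ZMod l) * (m : ZMod l)) *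
                (((pr (J.erase l) : ℕ) : ZMod l) * (m : ZMod l))) := by
          rw [e3]
          push_cast
          rw [em']
          ring
        rw [e4]
        have hJn : ((pr (J.erase l) : ℕ) : ZMod l) ≠ 0 := by
          rwa [Ne, ZMod.natCast_eq_zero_iff]
        have h0 : (((pr (J.erase l) : ℕ) : ZMod l) * (m : ZMod l)) ≠ 0 := mul_ne_zero hJn hm0'
        rw [isSquare_mul_iff hlPJ (mul_ne_zero h0 h0)]
        constructor
        · intro h; exact h.2 ⟨_, rfl⟩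
        · intro h; exact ⟨fun _ => ⟨_, rfl⟩, fun _ => h⟩)
    have e5 : (l : ℤ) * ((pr (P.erase l) : ℕ) * m) = M := by
      rw [hM, e1]
      push_cast
      ring
    have e6 : (l : ℤ) * ((pr (J.erase l) : ℕ) : ℤ) = ((pr J : ℕ) : ℤ) := by
      rw [e2]
      push_cast
      ring
    rw [e5, e6] at h
    exact h
  have hlJn : ¬ l ∣ pr J := prime_not_dvd_pr hl.out hJp lJ
  have hlJz : ¬ (l : ℤ) ∣ ((pr J : ℕ) : ℤ) := by exact_mod_cast hlJn
  by_cases l7 : l = 7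
  · subst l7
    refine q1 7 (Or.inl ?_)
    refine padic_sq (by norm_num) hlJz ?_
    exact sq7_of (prJ7 J fun p h => (hP p (hJ h)).2.2)
  by_cases hlP : l ∈ P
  · refine q1 l (Or.inl ?_)
    refine padic_sq l2 hlJz ?_
    rw [Int.cast_natCast]
    exact (parity hl.out (hP l hlP).2.1 J (fun q h => ⟨(hP q (hJ h)).1, (hP q (hJ h)).2.1⟩) lJ).2
      (k1 l (Finset.mem_sdiff.2 ⟨hlP, lJ⟩))
  by_cases hlm : (l : ℤ) ∣ m
  · have hn7 := (hm l hl.out hlm).2.2
    refine q1 l ?_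
    by_cases hs : IsSquare (((pr J : ℕ) : ℤ) : ZMod l)
    · exact Or.inl (padic_sq l2 hlJz hs)
    · right
      have hJ0 : (((pr J : ℕ) : ℤ) : ZMod l) ≠ 0 := by
        rwa [Ne, ZMod.intCast_zmod_eq_zero_iff_dvd]
      have h70 : (-7 : ZMod l) ≠ 0 := by
        intro h
        exact hn7 ⟨0, by rw [h]; ring⟩
      have h1 : IsSquare (((((pr J : ℕ) : ℤ) * (-7) : ℤ)) : ZMod l) := by
        push_cast at hs hJ0 ⊢
        rw [isSquare_mul_iff hJ0 h70]
        exact ⟨fun h => absurd h hs, fun h => absurd h hn7⟩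
      have h2 : ¬ (l : ℤ) ∣ ((pr J : ℕ) : ℤ) * (-7) := by
        rw [← ZMod.intCast_zmod_eq_zero_iff_dvd]
        push_cast at hJ0 ⊢
        exact mul_ne_zero hJ0 h70
      obtain ⟨r, hr⟩ := padic_sq l2 h2 h1
      refine ⟨7 * (M : ℚ_[l]) * r, ?_⟩
      push_cast at hr ⊢
      linear_combination 49 * (M : ℚ_[l]) ^ 2 * hr
  · exact hg l M (pr J) l2 l7 (by
      intro h
      rcases (Nat.prime_iff_prime_int.1 hl.out).dvd_or_dvd h with h | h
      · exact prime_not_dvd_pr hl.out hPp hlP (by exact_mod_cast h)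
      · exact hlm h) hlJz

end Pool.Agent.Z702
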