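import Pool.Agent.Z702.Defs
import Pool.Agent.Z700.Defs3

/-!
# A kernel vector of the matrix gives an element of the isogeny Selmer group
-/

set_option autoImplicit false

namespace Pool.Agent.Z702

open Finset

open Pool.Agent.Z700 (pr lres)

open Pool.Agent.Z701 (Sp Nr xrS)

/-- LOC: a kernel vector of the matrix gives an element of the isogeny Selmer group -/
def S_LOC : Prop := ∀ P S : Finset ℕ, (∀ p ∈ P, Sp p) → (∀ q ∈ S, Nr q) → ∀ J ⊆ P,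
  (∀ p ∈ P \ J, Even (∑ q ∈ J, lres p q)) →
  (∀ p ∈ J, Even (∑ q ∈ P \ J, lres p q + xrS S p)) →
  (∀ (l : ℕ) [Fact l.Prime], LocI ℚ_[l] (13 * ((pr P * pr S : ℕ) : ℤ))
    (128 * ((pr P * pr S : ℕ) : ℤ) ^ 2) (pr J)) ∧
  LocI ℝ (13 * ((pr P * pr S : ℕ) : ℤ)) (128 * ((pr P * pr S : ℕ) : ℤ) ^ 2) (pr J)

end Pool.Agent.Z702
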