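import Pool.Agent.Z702.Main
import Pool.Agent.Z701.Fin
import Pool.Agent.Z488.Coc
import Pool.Agent.Y210.Z702.LOT
import Pool.Agent.Z290.COB
import Pool.Agent.Y545.Z702.Tor
import Pool.Agent.Z932.Z702.Trn
import Pool.Agent.Y363.Z7.Tors
import Pool.Agent.Z864.LQ.Lq
import Pool.Agent.Z894.LG
import Pool.Agent.Y474.Z.LP
import Pool.Agent.Y319.Z702.LOC
import Pool.Agent.Z785.Lin

set_option autoImplicit false

/-! The parts of the 2-converse (helpers 488, 210, 290, 545, 932, 363, 864, 894, 474, 319, 785). -/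

namespace Pool.Agent.Z702

theorem f_COC : S_COC := Pool.Agent.Z488.t_COC
theorem f_LOT : S_LOT := Pool.Agent.Y210.Z702.t_LOT
theorem f_COB : S_COB := Pool.Agent.Z290.COBf.t_COB
theorem f_TOR : S_TOR := Pool.Agent.Y545.Z702.t_TOR
theorem f_TRN : S_TRN := Pool.Agent.Z932.Z702.t_TRN
theorem f_TORS : S_TORS := Pool.Agent.Y363.Z7.t_TORS
theorem f_LQ : S_LQ := Pool.Agent.Z864.LQ.t_LQ
theorem f_LG : S_LG := Pool.Agent.Z894.LG.t_LG f_LQ
theorem f_LP : S_LP := Pool.Agent.Y474.Z.t_LP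
theorem f_LOC : S_LOC := Pool.Agent.Y319.Z702.t_LOC f_LQ f_LG f_LP
theorem f_LIN : S_LIN := Pool.Agent.Z785.t_LIN

end Pool.Agent.Z702
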